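import Mathlib
import Pool.Agent.U916.KF.Spec

set_option autoImplicit false

/-!
# Repunits with exactly `k` prime factors: the law for almost every pair (base, amplitude)

For real `α > 1`, `β > 0`, a real constant `c` and a prime `p` let `W c α β p` be the `p`-rough part
(the product, with multiplicity, of the prime factors larger than `p`) of `⌊β α ^ p - c⌋`, and let
`N c k α β n` be the number of primes `p ≤ n` for which `W c α β p` has exactly `k` prime factors,
counted with multiplicity.  For every integer `b ≥ 2`, at `c = β = 1 / (b - 1)` and `α = b`, the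
number `W` is the repunit `1 + b + ... + b ^ (p - 1)` to the base `b`, for all primes `p` not
dividing `b - 1`; for `b = 10` it is the decimal repunit `R_p`, for all primes `p ≠ 3`.

We prove that for every real `c` and for Lebesgue almost every pair `(α, β)` with `α > 1`, `β > 0`,
for all `k ≥ 1` at once, `N c k α β n ~ e ^ γ (log n) ^ k / (k! log α)`.
-/

namespace Pool.Agent.Results.MP_adea1b_nt.KPrimeFactors

open Filter Topology MeasureTheory
open ArithmeticFunction (cardFactors)

/-- The product, with multiplicity, of the prime factors of `m` that are larger than `p`. -/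
def roughPart (p m : ℕ) : ℕ := (m.primeFactorsList.filter (fun r => p < r)).prod

/-- The `p`-rough part of `⌊β α ^ p - c⌋`. -/
noncomputable def W (c α β : ℝ) (p : ℕ) : ℕ := roughPart p ⌊β * α ^ p - c⌋₊

/-- The number of primes `p ≤ n` for which `W c α β p` has exactly `k` prime factors, counted with
multiplicity. -/
noncomputable def N (c : ℝ) (k : ℕ) (α β : ℝ) (n : ℕ) : ℕ :=
  ((Finset.range (n + 1)).filter (fun p => p.Prime ∧ cardFactors (W c α β p) = k)).card

/-- The repunits to an integer base. -/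
lemma special {b : ℕ} (hb : 2 ≤ b) {p : ℕ} (hp : p.Prime) (hpd : ¬ p ∣ b - 1) :
    W (1 / ((b : ℝ) - 1)) b (1 / ((b : ℝ) - 1)) p = ∑ i ∈ Finset.range p, b ^ i := by
  have hb2 : (2 : ℝ) ≤ b := by exact_mod_cast hb
  have hne : (b : ℝ) - 1 ≠ 0 := by linarith
  have hpd' : ¬ (p : ℤ) ∣ (b : ℤ) - 1 := by
    intro h
    apply hpd
    have h1 : (b : ℤ) - 1 = ((b - 1 : ℕ) : ℤ) := by
      rw [Nat.cast_sub (by omega)]
      norm_num
    rw [h1] at h
    exact_mod_cast h
  have h := Pool.Agent.H447R2.ML.rough_quot (a := b) (b := 1) isCoprime_one_right (by omega)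
    (by omega) hp hpd' (x := 1 / ((b : ℝ) - 1) * (b : ℝ) ^ p - 1 / ((b : ℝ) - 1)) (by
      push_cast
      rw [one_pow])
  have h4 : W (1 / ((b : ℝ) - 1)) b (1 / ((b : ℝ) - 1)) p = Pool.Agent.H305R2.roughPart p
      ⌊1 / ((b : ℝ) - 1) * (b : ℝ) ^ p - 1 / ((b : ℝ) - 1)⌋₊ := rfl
  rw [← h4] at h
  have h5 : ((W (1 / ((b : ℝ) - 1)) b (1 / ((b : ℝ) - 1)) p : ℕ) : ℤ) =
      ((∑ i ∈ Finset.range p, b ^ i : ℕ) : ℤ) := by
    rw [h]
    push_cast
    refine Finset.sum_congr rfl fun i _ => ?_
    rw [one_pow, mul_one]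
  exact_mod_cast h5

/-- The decimal repunits. -/
lemma special_ten {p : ℕ} (hp : p.Prime) (h3 : p ≠ 3) :
    W (1 / 9) 10 (1 / 9) p = ∑ i ∈ Finset.range p, 10 ^ i := by
  have h1 : ¬ p ∣ 10 - 1 := by
    intro h
    have h2 : p ∣ 3 ^ 2 := by simpa using h
    exact h3 ((Nat.prime_dvd_prime_iff_eq hp Nat.prime_three).1 (hp.dvd_of_dvd_pow h2))
  have h := special (b := 10) (by norm_num) hp h1
  norm_num at h ⊢
  exact h

theorem result :
    -- the repunits to integer bases, in particular to the base ten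
    (∀ b : ℕ, 2 ≤ b → ∀ p : ℕ, p.Prime → ¬ p ∣ b - 1 →
      W (1 / ((b : ℝ) - 1)) b (1 / ((b : ℝ) - 1)) p = ∑ i ∈ Finset.range p, b ^ i) ∧
    (∀ p : ℕ, p.Prime → p ≠ 3 → W (1 / 9) 10 (1 / 9) p = ∑ i ∈ Finset.range p, 10 ^ i) ∧
    -- the law at almost every pair, for all `k` at once
    (∀ c : ℝ, ∀ᵐ z : ℝ × ℝ, 1 < z.1 → 0 < z.2 → ∀ k : ℕ, 1 ≤ k →
      Tendsto (fun n : ℕ => (N c k z.1 z.2 n : ℝ) / Real.log n ^ k) atTop
        (𝓝 (Real.exp Real.eulerMascheroniConstant / (k.factorial * Real.log z.1)))) := by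
  refine ⟨fun b hb p hp hpd => special hb hp hpd, fun p hp h3 => special_ten hp h3, fun c => ?_⟩
  have h := Pool.Agent.U916.KF.law' (g := fun _ => -c) (κ := 1) (C := |c|) le_rfl
    (by intro p; simp)
  filter_upwards [h] with z hz h1 h2 k hk
  refine (hz h1 h2 k hk).congr fun n => ?_
  unfold N W
  simp only [← sub_eq_add_neg]
  rfl

end Pool.Agent.Results.MP_adea1b_nt.KPrimeFactors
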