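import Mathlib
import Pool.Agent.U442.TA.SysB
import Pool.Agent.W66.LU
import Pool.Agent.TH888.R.Base

set_option autoImplicit false

/-!
# Decimal repunits and the last digits: error term and sets of lengths

Let `… d 2 d 1 d 0` be decimal digits, written to the left without end, and let `D d p` be the integer
with the last `p` digits `d (p - 1) … d 1 d 0`; all digits equal to `1` give the repunits `R_p`.
Let `W d p` be the `p`-rough part (the product, with multiplicity, of the prime factors larger than
`p`) of `D d p`; for the repunits and `p ≠ 3` this is `R_p` itself.  For a set `S` let `M S d n` be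
the number of primes `p ≤ n` in `S` with `W d p` prime, and let `V S n` be the sum of `log p / p` over
the primes `p ≤ n` in `S`.  The digits are chosen at random, independently and uniformly.  We prove
that for almost every sequence with last digit `d 0` in `{1, 3, 7, 9}`:

* `M d n = (e ^ γ / log 10) log n + O((log n) ^ (1/2) (log log n) ^ (5/2))` for the set of all primes;
* for every given set `S`, infinitely many primes `p` of `S` have `W d p` prime if and only if
  `V S n → ∞`, and in this case
  `M S d n = (e ^ γ / log 10) V S n + O((V L) ^ (1/2) (log (V L)) ^ 2)`, `V = V S n`, `L = log log n`.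
-/

namespace Pool.Agent.Results.MP_adea1b_nt.LastDigits

open Filter Topology MeasureTheory Asymptotics

/-- The product, with multiplicity, of the prime factors of `m` that are larger than `p`. -/
def roughPart (p m : ℕ) : ℕ := (m.primeFactorsList.filter (fun r => p < r)).prod

/-- The integer with the decimal digits `d (p - 1) … d 1 d 0`. -/
def D (d : ℕ → Fin 10) (p : ℕ) : ℕ := ∑ i ∈ Finset.range p, (d i : ℕ) * 10 ^ i

/-- The `p`-rough part of the integer with the last `p` digits. -/
def W (d : ℕ → Fin 10) (p : ℕ) : ℕ := roughPart p (D d p)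

open Classical in
/-- The number of primes `p ≤ n` in the set `S` for which `W d p` is prime. -/
noncomputable def M (S : Set ℕ) (d : ℕ → Fin 10) (n : ℕ) : ℕ :=
  ((Finset.range (n + 1)).filter (fun p => p.Prime ∧ p ∈ S ∧ (W d p).Prime)).card

open Classical in
/-- The sum of `log p / p` over the primes `p ≤ n` in the set `S`. -/
noncomputable def V (S : Set ℕ) (n : ℕ) : ℝ :=
  ∑ p ∈ (Finset.range (n + 1)).filter (fun p => p.Prime ∧ p ∈ S), Real.log p / p

/-- Independent, uniformly distributed decimal digits. -/
noncomputable def digits : Measure (ℕ → Fin 10) :=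
  Measure.infinitePi (fun _ : ℕ => ProbabilityTheory.uniformOn (Set.univ : Set (Fin 10)))

lemma V_eq (S : Set ℕ) (n : ℕ) : V S n = Pool.Agent.TH888.R.VS S n := by
  classical
  unfold V Pool.Agent.TH888.R.VS
  rw [Finset.sum_filter]
  refine Finset.sum_congr rfl fun p _ => ?_
  by_cases h : p.Prime ∧ p ∈ S
  · rw [if_pos h, if_pos ⟨h.2, h.1⟩]
    rfl
  · rw [if_neg h, if_neg fun h1 => h ⟨h1.2, h1.1⟩]

lemma M_eq (S : Set ℕ) (d : ℕ → Fin 10) (n : ℕ) :
    M S d n = Pool.Agent.TH888.R.cS S (fun p => Pool.Agent.W66L.dsum 10 p d) n := by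
  classical
  unfold M Pool.Agent.TH888.R.cS
  rfl

/-- The digits `1` give the repunits; for almost every sequence of digits with the last digit prime
to `10` the law holds with a square root error term, for all lengths and for the lengths in a set of
divergent weight, and the lengths in a set are infinitely many exactly when its weight diverges. -/
theorem result :
    (∀ p : ℕ, D (fun _ => 1) p = ∑ i ∈ Finset.range p, 10 ^ i) ∧
    (∀ p : ℕ, p.Prime → p ≠ 3 → W (fun _ => 1) p = ∑ i ∈ Finset.range p, 10 ^ i) ∧
    (∀ᵐ d : ℕ → Fin 10 ∂digits, (d 0 : ℕ).Coprime 10 →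
      (fun n : ℕ => (M Set.univ d n : ℝ) -
        Real.exp Real.eulerMascheroniConstant / Real.log 10 * Real.log n) =O[atTop]
      (fun n : ℕ => Real.sqrt (Real.log n) * (Real.log (Real.log n)) ^ ((5 : ℝ) / 2))) ∧
    (∀ S : Set ℕ, ∀ᵐ d : ℕ → Fin 10 ∂digits, (d 0 : ℕ).Coprime 10 →
      ({p : ℕ | p.Prime ∧ p ∈ S ∧ (W d p).Prime}.Infinite ↔ Tendsto (V S) atTop atTop) ∧
      (Tendsto (V S) atTop atTop →
        (fun n : ℕ => (M S d n : ℝ) -
          Real.exp Real.eulerMascheroniConstant / Real.log 10 * V S n) =O[atTop]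
        (fun n : ℕ => Real.sqrt (V S n * Real.log (Real.log n)) *
          (Real.log (V S n * Real.log (Real.log n))) ^ 2))) := by
  have hV : ∀ S, V S = Pool.Agent.TH888.R.VS S := fun S => funext fun n => V_eq S n
  have h1 : ∀ p : ℕ, D (fun _ => 1) p = ∑ i ∈ Finset.range p, 10 ^ i := by
    intro p
    unfold D
    refine Finset.sum_congr rfl fun i _ => ?_
    norm_num
  have hpt : ∀ S : Set ℕ, ∀ᵐ d : ℕ → Fin 10 ∂digits, (d 0 : ℕ).Coprime 10 →
      Pool.Agent.TH888.R.Pt (fun p => Pool.Agent.W66L.dsum 10 p d)
      (Real.exp Real.eulerMascheroniConstant / Real.log 10) S := by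
    intro S
    have h := Pool.Agent.U442.TA.pt_full (b := 10) (by norm_num) (Pool.Agent.W66L.full_digits 10) S
    filter_upwards [h] with d hd hc
    have hc' : (Pool.Agent.W66L.dsum 10 1 d).Coprime 10 := by
      unfold Pool.Agent.W66L.dsum
      simpa using hc
    have h3 := hd hc'
    simp only [Nat.cast_ofNat] at h3
    exact h3
  refine ⟨h1, fun p hp hp3 => ?_, ?_, fun S => ?_⟩
  · have h9 : ¬ p ∣ 10 - 1 := by
      intro h
      have h2 : p ∣ 3 ^ 2 := by simpa using h
      exact hp3 ((Nat.prime_dvd_prime_iff_eq hp Nat.prime_three).1 (hp.dvd_of_dvd_pow h2))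
    have h2 := Pool.Agent.W66L.rough_repunit (b := 10) (by norm_num) hp h9
    have h3 : W (fun _ => 1) p = Pool.Agent.H305R2.roughPart p (D (fun _ => 1) p) := rfl
    rw [h3, h1, h2]
  · filter_upwards [hpt Set.univ] with d hd h0
    obtain ⟨B, hB, h⟩ := (hd h0).law Pool.Agent.TH888.R.VS_univ_tendsto
    simp only [M_eq]
    exact Pool.Agent.TH888.R.bigO_all hB h
  · rw [hV]
    filter_upwards [hpt S] with d hd h0
    refine ⟨⟨fun hi => ?_, fun hT => (hd h0).inf hT⟩, fun hS => ?_⟩
    · by_contra hn
      exact hi ((hd h0).fin hn)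
    · obtain ⟨B, hB, h⟩ := (hd h0).law hS
      simp only [M_eq]
      exact Pool.Agent.TH888.R.bigO_set hB hS h

end Pool.Agent.Results.MP_adea1b_nt.LastDigits
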