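import Mathlib
import Pool.Agent.N176.SH.Spe
import Pool.Agent.U776.PL.Tup

set_option autoImplicit false

/-!
# Repunits and first digits: the good lengths of almost every amplitude follow a Poisson law

For an integer `a ≥ 2`, a real `β > 0` and a prime `p` let `W a β p` be the `p`-rough part (the
product, with multiplicity, of the prime factors larger than `p`) of the largest integer below
`β * a ^ p`, the integer formed by the first `p` digits of `β` in base `a`.  For `a = 10` and
`β = 1 / 9 = 0.111...` this is the repunit `R_p` itself, for every prime `p ≠ 3`; in base `a` the point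
`β = 1 / (a - 1)` gives the repunit `(a ^ p - 1) / (a - 1)`, for every prime `p` not dividing `a - 1`.
Call a prime `p` a good length for `β` in base `a` if `W a β p` is prime.

The heuristic for repunit primes is a Poisson model: the numbers of good lengths in disjoint sets of
primes should behave like independent Poisson variables, and the expected number in a finite set `T` of
primes should be `κ a * V T`, `V T = ∑_{p ∈ T} log p / p`, `κ a = e ^ γ / log a`.  We prove that almost
every single `β` behaves in this way, in all bases at once, along thin sets of primes: sets whose part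
in every dyadic interval `(x, 2 x]` has small weight `V`, and in which primes at bounded distance from
one another have small total weight.

Precisely, let `y 0 ≤ y 1 ≤ …`, and let `T n i`, `i` in a finite index set, be disjoint finite sets of
primes in `[y n, y (n + 1))`, thin as `n → ∞`, with `V (T n i) → v i`.  Let `X n` be the vector of the
numbers of good lengths of `β` in the sets `T n i`.  For almost every `β > 0`, in all bases `a` at once,
the sequence `X 0, X 1, X 2, …` is generic for the sequence of independent vectors of independent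
Poisson variables with the parameters `κ a * v i`: every tuple `(k 0, …, k (r - 1))` of vectors occurs
among the tuples `(X n, …, X (n + r - 1))` with its Poisson probability as frequency.
-/

namespace Pool.Agent.Results.MP_adea1b_nt.PoissonLaw

open Filter Topology MeasureTheory

/-- The product, with multiplicity, of the prime factors of `m` that are larger than `p`. -/
def roughPart (p m : ℕ) : ℕ := (m.primeFactorsList.filter (fun r => p < r)).prod

/-- The `p`-rough part of the largest integer below `β * a ^ p`. -/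
noncomputable def W (a : ℕ) (β : ℝ) (p : ℕ) : ℕ := roughPart p (⌈β * (a : ℝ) ^ p⌉₊ - 1)

/-- The number of the `p` in the finite set `T` for which `W a β p` is prime. -/
noncomputable def N (a : ℕ) (T : Finset ℕ) (β : ℝ) : ℕ :=
  (T.filter (fun p => (W a β p).Prime)).card

/-- The weight `∑_{p ∈ T} log p / p` of a finite set. -/
noncomputable def V (T : Finset ℕ) : ℝ := ∑ p ∈ T, Real.log p / p

/-- The constant `e ^ γ / log a`. -/
noncomputable def κ (a : ℕ) : ℝ := Real.exp Real.eulerMascheroniConstant / Real.log a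

/-- The weights of the Poisson law with the parameter `lam`. -/
noncomputable def pois (lam : ℝ) (k : ℕ) : ℝ := Real.exp (-lam) * lam ^ k / k.factorial

open Classical in
/-- `T 0, T 1, …` are families (indexed by `ι`) of pairwise disjoint finite sets of primes; the weight
of the part in a dyadic interval tends to zero, uniformly in the interval; the weight of the members
which are followed by another member of the family at a distance less than `g` tends to zero, for
every `g`. -/
structure Thin {ι : Type} (T : ℕ → ι → Finset ℕ) : Prop where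
  prime : ∀ n i, ∀ p ∈ T n i, p.Prime
  disjoint : ∀ n i j, i ≠ j → Disjoint (T n i) (T n j)
  dyadic : ∀ δ : ℝ, 0 < δ → ∀ᶠ n in atTop, ∀ i, ∀ x : ℕ,
    V ((T n i).filter (fun p => x < p ∧ p ≤ 2 * x)) ≤ δ
  close : ∀ g : ℕ, ∀ δ : ℝ, 0 < δ → ∀ᶠ n in atTop, ∀ i,
    V ((T n i).filter (fun p => ∃ j, ∃ q ∈ T n j, p < q ∧ q < p + g)) ≤ δ

lemma W_eq (a : ℕ) (β : ℝ) (p : ℕ) : W a β p = Pool.Agent.H305R2.roughPart p
    (Pool.Agent.N176.SH.sh (fun _ => 0) p (Pool.Agent.N176.GP.NB a β p)) := by
  unfold Pool.Agent.N176.SH.sh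
  rw [add_zero, Int.toNat_natCast]
  rfl

lemma N_eq (a : ℕ) (T : Finset ℕ) (β : ℝ) :
    Pool.Agent.U776.PL.NS (fun _ => 0) a T β = N a T β := by
  unfold Pool.Agent.U776.PL.NS N
  simp only [W_eq]

/-- the special value -/
lemma special {a p : ℕ} (ha : 2 ≤ a) (hp : p.Prime) (hpa : ¬ p ∣ a - 1) :
    W a (1 / ((a : ℝ) - 1)) p = (a ^ p - 1) / (a - 1) := by
  have ha1 : ((a : ℤ) - 1) = ((a - 1 : ℕ) : ℤ) := by
    rw [Nat.cast_sub (by omega)]
    rfl
  have h := Pool.Agent.N176.SH.spe (a := a) (b := 1) (by simpa using (by omega : 1 < a))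
    isCoprime_one_right hp (by
      rw [ha1]
      exact fun h => hpa (by exact_mod_cast h))
  have ha2 : (2 : ℝ) ≤ a := by exact_mod_cast ha
  have hβ : 0 < 1 / ((a : ℝ) - 1) := by
    have : (0 : ℝ) < (a : ℝ) - 1 := by linarith
    positivity
  have h2 : Pool.Agent.N176.SH.WW a 1 (1 / ((a : ℝ) - (1 : ℤ))) p = W a (1 / ((a : ℝ) - 1)) p := by
    unfold Pool.Agent.N176.SH.WW W
    have h3 : ⌈((1 : ℤ) : ℝ) ^ p / ((a : ℝ) - (1 : ℤ))⌉ = 1 := by
      rw [Int.cast_one, one_pow, Int.ceil_eq_iff]
      push_cast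
      have : (1 : ℝ) / ((a : ℝ) - 1) ≤ 1 := by
        rw [div_le_one (by linarith)]
        linarith
      constructor <;> linarith
    rw [h3, Int.cast_one]
    have h4 : ((⌈1 / ((a : ℝ) - 1) * (a : ℝ) ^ p⌉₊ : ℕ) : ℤ) = ⌈1 / ((a : ℝ) - 1) * (a : ℝ) ^ p⌉ :=
      Int.natCast_ceil_eq_ceil (by positivity)
    rw [← h4]
    have h5 : (((⌈1 / ((a : ℝ) - 1) * (a : ℝ) ^ p⌉₊ : ℕ) : ℤ) - 1).toNat =
        ⌈1 / ((a : ℝ) - 1) * (a : ℝ) ^ p⌉₊ - 1 := by omega
    rw [h5]
    rfl
  rw [h2, ha1] at h
  have h3 : ((W a (1 / ((a : ℝ) - 1)) p * (a - 1) : ℕ) : ℤ) = ((a ^ p - 1 : ℕ) : ℤ) := by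
    rw [Nat.cast_sub (Nat.one_le_pow _ _ (by omega))]
    push_cast
    rw [one_pow] at h
    exact h
  have h4 : W a (1 / ((a : ℝ) - 1)) p * (a - 1) = a ^ p - 1 := by exact_mod_cast h3
  rw [← h4, Nat.mul_div_cancel _ (by omega)]

/-- the decimal repunits -/
lemma special_ten {p : ℕ} (hp : p.Prime) (hp3 : p ≠ 3) :
    W 10 (1 / 9) p = ∑ i ∈ Finset.range p, 10 ^ i := by
  have hp9 : ¬ p ∣ 10 - 1 := by
    intro h
    have : p ∣ 3 ^ 2 := by simpa using h
    exact hp3 ((Nat.prime_dvd_prime_iff_eq hp Nat.prime_three).1 (hp.dvd_of_dvd_pow this))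
  have h := special (a := 10) (by norm_num) hp hp9
  have e : (1 / ((10 : ℕ) - 1 : ℝ)) = 1 / 9 := by norm_num
  rw [e] at h
  rw [h, Nat.geomSum_eq (by norm_num) p]

open Classical in
/-- The special values; the Poisson law for almost every single amplitude, in all bases at once. -/
theorem result :
    (∀ p : ℕ, p.Prime → p ≠ 3 → W 10 (1 / 9) p = ∑ i ∈ Finset.range p, 10 ^ i) ∧
    (∀ a : ℕ, 2 ≤ a → ∀ p : ℕ, p.Prime → ¬ p ∣ a - 1 →
      W a (1 / ((a : ℝ) - 1)) p = (a ^ p - 1) / (a - 1)) ∧
    (∀ (ι : Type) [Fintype ι] (T : ℕ → ι → Finset ℕ) (v : ι → ℝ), Thin T →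
      ∀ y : ℕ → ℕ, Monotone y → (∀ n i, ∀ p ∈ T n i, y n ≤ p ∧ p < y (n + 1)) →
      (∀ i, Tendsto (fun n => V (T n i)) atTop (𝓝 (v i))) → 0 < ∑ i, v i →
      ∀ᵐ β : ℝ, 0 < β → ∀ a : ℕ, 2 ≤ a → ∀ (r : ℕ) (k : Fin r → ι → ℕ),
      Tendsto (fun m : ℕ => (((Finset.range m).filter
        (fun n => ∀ (l : Fin r) (i : ι), N a (T (n + l) i) β = k l i)).card : ℝ) / (m : ℝ)) atTop
        (𝓝 (∏ l, ∏ i, pois (κ a * v i) (k l i)))) := by
  refine ⟨fun p hp h3 => special_ten hp h3, fun a ha p hp hpa => special ha hp hpa, ?_⟩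
  intro ι _ T v hT y hmono hy hv hpos
  have h1 : ∀ a : ℕ, ∀ᵐ β : ℝ, 2 ≤ a → 0 < β → ∀ (r : ℕ) (k : Fin r → ι → ℕ),
      Tendsto (fun m : ℕ => (((Finset.range m).filter
        (fun n => ∀ (l : Fin r) (i : ι), N a (T (n + l) i) β = k l i)).card : ℝ) / (m : ℝ)) atTop
        (𝓝 (∏ l, ∏ i, pois (κ a * v i) (k l i))) := by
    intro a
    by_cases ha : 2 ≤ a
    · have h := Pool.Agent.U776.PL.quenched_tuples (Pool.Agent.U776.PL.ok_zero ha) T y hmono hy
        hT.disjoint (fun g δ hδ => by
          filter_upwards [hT.close g δ hδ] with n hn i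
          refine le_trans (le_of_eq ?_) (hn i)
          exact Finset.sum_congr (Finset.ext fun p => by simp only [Finset.mem_filter])
            fun _ _ => rfl) hT.dyadic hv hpos
      simp only [N_eq] at h
      filter_upwards [h] with β hβ _ h0 r k
      exact hβ h0 r k
    · exact Eventually.of_forall fun β h => absurd h ha
  filter_upwards [ae_all_iff.2 h1] with β hβ h0 a ha
  exact hβ a ha h0

end Pool.Agent.Results.MP_adea1b_nt.PoissonLaw
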