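import Mathlib
import Pool.Agent.U310.Mers.Pairs
import Pool.Agent.U310.Mers.Pair

set_option autoImplicit false

/-!
# Decimal repunits in random models of the primes with a sieve

The question is whether infinitely many decimal repunits `R_n = (10 ^ n - 1) / 9` are prime; a prime repunit has
a prime index.  We answer it in random models of the primes: the natural numbers are decided one after the
other, no `m` with a prime factor at most `z(m)` is chosen, and the conditional probability of choosing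
`m + 1` (without prime factors at most `z(m + 1)`) given the past is asymptotic to
`∏_{q ≤ z(m + 1)} (1 - 1/q)⁻¹ / log m`.  No independence and no rate is assumed.
-/

open MeasureTheory Filter
open scoped Topology

namespace Pool.Agent.Results.MP_adea1b_nt.RandomSieveModels

/-- `∏_{q ≤ x} (1 - 1/q)⁻¹`, `q` prime -/
noncomputable def W (x : ℕ) : ℝ := ∏ q ∈ (Finset.Icc 1 x).filter Nat.Prime, (1 - (q : ℝ)⁻¹)⁻¹

/-- `m` has no prime factor at most `z m` -/
def Rough (z : ℕ → ℕ) (m : ℕ) : Prop := ∀ q, q.Prime → q ≤ z m → ¬ q ∣ m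

/-- A random model of the primes with sieve level `z`.  `S n` is the event that `n` is chosen; it is adapted
to the filtration `ℱ`; no `n` with a prime factor at most `z n` is chosen; almost surely the conditional
probability of `S (n + 1)` given `ℱ n`, times `log n / W (z (n + 1))`, tends to `1` along the `n` for which
`n + 1` has no prime factor at most `z (n + 1)`. -/
structure Model {Ω : Type} [mΩ : MeasurableSpace Ω] (μ : Measure Ω) (ℱ : Filtration ℕ mΩ)
    (S : ℕ → Set Ω) (z : ℕ → ℕ) : Prop where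
  adapted : ∀ n, MeasurableSet[ℱ n] (S n)
  sieved : ∀ n, ¬ Rough z n → S n = ∅
  density : ∀ᵐ ω ∂μ, Tendsto (fun n : ℕ =>
    (μ[(S (n + 1)).indicator (fun _ => (1 : ℝ)) | ℱ n]) ω * Real.log n / W (z (n + 1)))
    (atTop ⊓ 𝓟 {n : ℕ | Rough z (n + 1)}) (𝓝 1)

/-- the repunit with `n` digits in base `b` -/
def R (b n : ℕ) : ℕ := ∑ i ∈ Finset.range n, b ^ i

/-- the number of primes `p ≤ n` in `E` with `R 10 p ∈ S` -/
noncomputable def N (S E : Set ℕ) (n : ℕ) : ℕ := {p | p ≤ n ∧ p.Prime ∧ p ∈ E ∧ R 10 p ∈ S}.ncard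

open Classical in
/-- `∑ log p / p` over the primes `p ≤ n` in `E` -/
noncomputable def L (E : Set ℕ) (n : ℕ) : ℝ :=
  ∑ p ∈ (Finset.Icc 1 n).filter (fun p => p.Prime ∧ p ∈ E), Real.log p / p

lemma R_eq (b : ℕ) (hb : 2 ≤ b) : R b = Pool.Agent.U310.Mers.DP b 1 := by
  funext n
  have h1 := Pool.Agent.U310.Mers.DP_cast (a := b) (b := 1) (by exact_mod_cast hb) (by linarith) (by exact_mod_cast hb) n
  have h2 : ((R b n : ℕ) : ℤ) * ((b : ℤ) - 1) = (b : ℤ) ^ n - 1 ^ n := by
    unfold R
    push_cast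
    rw [geom_sum_mul, one_pow]
  have h3 : ((b : ℤ) - 1) ≠ 0 := by
    have : (2 : ℤ) ≤ b := by exact_mod_cast hb
    intro h
    linarith
  have h4 := mul_right_cancel₀ h3 (h2.trans h1.symm)
  exact_mod_cast h4

lemma R_expo (b : ℕ) (hb : 2 ≤ b) : Pool.Agent.U310.Mers.Expo (R b) (Real.log b) := by
  rw [R_eq b hb]
  have h := Pool.Agent.U310.Mers.DP_expo (a := b) (b := 1) (by exact_mod_cast hb) (by linarith)
    (by exact_mod_cast hb) isCoprime_one_right
  simpa using h

/-- **Decimal repunits in random models with a sieve.**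

(1) For almost all primes `p` (in the sense of relative density) the repunit `R_p` has no prime factor
`q ≤ g(p) p log p`, for every `g → 0`.  (This concerns the actual numbers.)

Consider a random model with sieve level `z`, `log z(m) / log log m → θ > 0`.

(2) Let `z(m) ≤ τ log m` for all large `m`, `τ log 10 < 2`.  For every set `E` of exponents: if the sum of
`log p / p` over the primes `p` in `E` diverges, then almost surely the number of primes `p ≤ n` in `E` with `R_p`
chosen is asymptotic to `(θ e ^ γ / log 10) ∑ log p / p`, the sum over the primes `p ≤ n` in `E`; if the sum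
converges, then almost surely only finitely many `R_p`, `p` a prime in `E`, are chosen.

(3) Let `z(m) / (log m log log m) → 0`.  If `E` has relative logarithmic density `d` in the primes, then almost
surely the number of primes `p ≤ n` in `E` with `R_p` chosen, divided by `log n`, tends to
`d θ e ^ γ / log 10`; in particular the number of all primes `p ≤ n` with `R_p` chosen, divided by `log n`,
tends to `θ e ^ γ / log 10`.

(4) Almost surely the following holds: for every base `b ≥ 2`, `b ≠ 10`, there are only finitely many `p` for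
which the repunits with `p` digits in the bases `10` and `b` are both chosen; and there are only finitely many
odd `p` for which `(10 ^ p - 1) / 9` and `(10 ^ p + 1) / 11` are both chosen. -/
theorem result :
    -- (1)
    (∀ g : ℕ → ℝ, Tendsto g atTop (𝓝 0) →
      Tendsto (fun n : ℕ => ({p : ℕ | p ≤ n ∧ p.Prime ∧ ∃ q : ℕ, q.Prime ∧ q ∣ R 10 p ∧
        (q : ℝ) ≤ g p * (p * Real.log p)}.ncard : ℝ) / (n / Real.log n)) atTop (𝓝 0)) ∧
    ∀ {Ω : Type} [mΩ : MeasurableSpace Ω] (μ : Measure Ω) [IsProbabilityMeasure μ]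
      (ℱ : Filtration ℕ mΩ) (S : ℕ → Set Ω) (z : ℕ → ℕ) (_ : Model μ ℱ S z) (θ : ℝ) (_ : 0 < θ)
      (_ : Tendsto (fun m : ℕ => Real.log (z m) / Real.log (Real.log m)) atTop (𝓝 θ)),
    -- (2)
    (∀ τ : ℝ, 0 ≤ τ → τ * Real.log 10 < 2 → (∀ᶠ m : ℕ in atTop, (z m : ℝ) ≤ τ * Real.log m) →
      ∀ E : Set ℕ,
        (Tendsto (L E) atTop atTop →
          ∀ᵐ ω ∂μ, Tendsto (fun n => (N {k | ω ∈ S k} E n : ℝ) /
            (θ * Real.exp Real.eulerMascheroniConstant / Real.log 10 * L E n)) atTop (𝓝 1)) ∧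
        ((∃ C : ℝ, ∀ n, L E n ≤ C) → ∀ᵐ ω ∂μ, {p | p.Prime ∧ p ∈ E ∧ ω ∈ S (R 10 p)}.Finite)) ∧
    -- (3)
    (Tendsto (fun m : ℕ => (z m : ℝ) / (Real.log m * Real.log (Real.log m))) atTop (𝓝 0) →
      (∀ (E : Set ℕ) (d : ℝ), Tendsto (fun n => L E n / Real.log n) atTop (𝓝 d) →
        ∀ᵐ ω ∂μ, Tendsto (fun n : ℕ => (N {k | ω ∈ S k} E n : ℝ) / Real.log n) atTop
          (𝓝 (θ * Real.exp Real.eulerMascheroniConstant / Real.log 10 * d))) ∧
      ∀ᵐ ω ∂μ, Tendsto (fun n : ℕ => ({p : ℕ | p ≤ n ∧ p.Prime ∧ ω ∈ S (R 10 p)}.ncard : ℝ) / Real.log n) atTop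
          (𝓝 (θ * Real.exp Real.eulerMascheroniConstant / Real.log 10))) ∧
    -- (4)
    (∀ᵐ ω ∂μ, (∀ b : ℕ, 2 ≤ b → b ≠ 10 → {p : ℕ | ω ∈ S (R 10 p) ∧ ω ∈ S (R b p)}.Finite) ∧
      {p : ℕ | Odd p ∧ ω ∈ S (R 10 p) ∧ ω ∈ S ((10 ^ p + 1) / 11)}.Finite) := by
  have hX : Pool.Agent.U310.Mers.Expo (R 10) (Real.log 10) := by
    have h := R_expo 10 (by norm_num)
    simpa using h
  refine ⟨fun g hg => Pool.Agent.U310.Mers.galmost hX g hg, ?_⟩
  intro Ω mΩ μ hμ ℱ S z hM θ hθ hz
  have hW' := Pool.Agent.U310.Mers.W_small z θ hθ hz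
  have hprof : ∀ᵐ ω ∂μ, ∀ ε : ℝ, 0 < ε → ∀ᶠ n : ℕ in atTop,
        |Pool.Agent.R528.RM.dens μ ℱ S n ω - Pool.Agent.U310.Mers.rho1 z (n + 1)| ≤
          ε * Pool.Agent.U310.Mers.rho1 z (n + 1) :=
    Pool.Agent.U310.Mers.profile z hW' hM.sieved hM.density
  refine ⟨?_, ?_, ?_⟩
  · intro τ hτ hτc hzτ E
    exact ⟨fun h => Pool.Agent.U310.Mers.gtau_inf hM.adapted hX z θ hθ hz hprof τ hτ hτc hzτ E h,
      fun h => Pool.Agent.U310.Mers.gtau_fin hM.adapted hX z θ hθ hz hprof E h⟩
  · intro hz0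
    have h4 : ∀ (E : Set ℕ) (d : ℝ), Tendsto (fun n => L E n / Real.log n) atTop (𝓝 d) →
        ∀ᵐ ω ∂μ, Tendsto (fun n : ℕ => (N {k | ω ∈ S k} E n : ℝ) / Real.log n) atTop
          (𝓝 (θ * Real.exp Real.eulerMascheroniConstant / Real.log 10 * d)) :=
      fun E d hd => Pool.Agent.U310.Mers.gdens hM.adapted hX z θ hθ hz hprof hz0 E d hd
    refine ⟨h4, ?_⟩
    filter_upwards [h4 Set.univ 1 Pool.Agent.U310.Mers.L_univ] with ω hω
    rw [mul_one] at hω
    refine hω.congr fun n => ?_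
    have : {p | p ≤ n ∧ p.Prime ∧ p ∈ Set.univ ∧ R 10 p ∈ {k | ω ∈ S k}} =
        {p | p ≤ n ∧ p.Prime ∧ ω ∈ S (R 10 p)} := by
      ext p
      constructor
      · rintro ⟨h1, h2, -, h3⟩
        exact ⟨h1, h2, h3⟩
      · rintro ⟨h1, h2, h3⟩
        exact ⟨h1, h2, trivial, h3⟩
    unfold N
    rw [this]
  · have g1 : ∀ᵐ ω ∂μ, ∀ b : ℕ, 2 ≤ b → b ≠ 10 → {p : ℕ | ω ∈ S (R 10 p) ∧ ω ∈ S (R b p)}.Finite := by
      rw [ae_all_iff]
      intro b
      by_cases hb : 2 ≤ b ∧ b ≠ 10
      · have hne : ∀ᶠ p in atTop, R 10 p ≠ R b p := by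
          filter_upwards [eventually_ge_atTop 2] with p hp heq
          unfold R at heq
          rcases Nat.lt_or_gt_of_ne hb.2 with h | h
          · have h5 : ∑ i ∈ Finset.range p, b ^ i < ∑ i ∈ Finset.range p, 10 ^ i := by
              refine Finset.sum_lt_sum (fun i _ => Nat.pow_le_pow_left h.le i) ⟨1, ?_, ?_⟩
              · rw [Finset.mem_range]; omega
              · simpa using h
            omega
          · have h5 : ∑ i ∈ Finset.range p, 10 ^ i < ∑ i ∈ Finset.range p, b ^ i := by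
              refine Finset.sum_lt_sum (fun i _ => Nat.pow_le_pow_left h.le i) ⟨1, ?_, ?_⟩
              · rw [Finset.mem_range]; omega
              · simpa using h
            omega
        filter_upwards [Pool.Agent.U310.Mers.gtwo hM.adapted hX (R_expo b hb.1) z θ hθ hz hprof hne] with ω hω _ _
        exact hω
      · exact Eventually.of_forall fun ω h1 h2 => absurd ⟨h1, h2⟩ hb
    have hY : Pool.Agent.U310.Mers.Expo (Pool.Agent.U310.Mers.DP 10 (-1)) (Real.log 10) := by
      have h := Pool.Agent.U310.Mers.DP_expo (a := 10) (b := -1) (by norm_num) (by norm_num)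
        (by norm_num) (by exact ⟨0, -1, by norm_num⟩)
      simpa using h
    have hne2 : ∀ᶠ p in atTop, R 10 p ≠ Pool.Agent.U310.Mers.DP 10 (-1) p := by
      filter_upwards [eventually_ge_atTop 2] with p hp heq
      have h1 := Pool.Agent.U310.Mers.DP_cast (a := 10) (b := -1) (by norm_num) (by norm_num) (by norm_num) p
      have h2 := Pool.Agent.U310.Mers.DP_cast (a := 10) (b := 1) (by norm_num) (by norm_num) (by norm_num) p
      have h3 := R_eq 10 (by norm_num)
      push_cast at h3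
      rw [← heq, h3] at h1
      have h4 : (-1 : ℤ) ^ p ≤ 1 := by
        rcases neg_one_pow_eq_or ℤ p with h | h <;> rw [h] <;> norm_num
      have h5 : (10 : ℤ) ^ 2 ≤ 10 ^ p := pow_le_pow_right₀ (by norm_num) hp
      rw [one_pow] at h2
      -- `11 x = 10 ^ p - (-1) ^ p`, `9 x = 10 ^ p - 1`
      have h6 : (-1 : ℤ) ≤ (-1) ^ p := by
        rcases neg_one_pow_eq_or ℤ p with h | h <;> rw [h] <;> norm_num
      nlinarith
    filter_upwards [g1, Pool.Agent.U310.Mers.gtwo hM.adapted hX hY z θ hθ hz hprof hne2] with ω hω1 hω2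
    refine ⟨hω1, hω2.subset ?_⟩
    rintro p ⟨hp1, hp2, hp3⟩
    refine ⟨hp2, ?_⟩
    have h1 := Pool.Agent.U310.Mers.DP_cast (a := 10) (b := -1) (by norm_num) (by norm_num) (by norm_num) p
    rw [hp1.neg_one_pow] at h1
    have h2 : Pool.Agent.U310.Mers.DP 10 (-1) p * 11 = 10 ^ p + 1 := by
      have : ((Pool.Agent.U310.Mers.DP 10 (-1) p : ℕ) : ℤ) * 11 = 10 ^ p + 1 := by linarith
      exact_mod_cast this
    have h3 : (10 ^ p + 1) / 11 = Pool.Agent.U310.Mers.DP 10 (-1) p := by
      rw [← h2]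
      exact Nat.mul_div_cancel _ (by norm_num)
    rw [← h3]
    exact hp3

end Pool.Agent.Results.MP_adea1b_nt.RandomSieveModels
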